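import Pool.Agent.helper80.EN.Spec2

set_option autoImplicit false

namespace Pool.Agent.helper80.EN

open Subgroup

universe u

theorem RFG_fix {G V : Type u} [Group G] [MulAction G V] (S : Finset G)
    (hS : closure (S : Set G) = ⊤) (v : V) (h : ∀ s ∈ S, s • v = v) (g : G) : g • v = v := by
  have h1 : closure (S : Set G) ≤ MulAction.stabilizer G v := by
    rw [closure_le]
    intro s hs
    exact MulAction.mem_stabilizer_iff.2 (h s (Finset.mem_coe.1 hs))
  rw [hS] at h1
  exact MulAction.mem_stabilizer_iff.1 (h1 (mem_top g))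

theorem RFG_inj {V : Type u} {d : V → V → ℕ} (hd : TM d) (f : ℤ → V) (hf : Par d f) (m n : ℤ)
    (h : f m = f n) : m = n := by
  have h1 := hf m n
  rw [h, (hd.eq (f n) (f n)).2 rfl] at h1
  have h2 : |m - n| = 0 := by rw [← h1]; rfl
  have := abs_eq_zero.1 h2
  omega

theorem RFG_trans {G V : Type u} [Group G] [MulAction G V] (S : Finset G)
    (hS : closure (S : Set G) = ⊤) (f : ℤ → V)
    (h : ∀ s ∈ S, ∃ t : ℤ, ∀ n, s • f n = f (n + t)) (g : G) : ∃ t : ℤ, ∀ n, g • f n = f (n + t) := by
  have hg : g ∈ closure (S : Set G) := by rw [hS]; exact mem_top g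
  induction hg using Subgroup.closure_induction with
  | mem s hs => exact h s (Finset.mem_coe.1 hs)
  | one => exact ⟨0, fun n => by rw [one_smul, add_zero]⟩
  | mul x y _ _ hx hy =>
    obtain ⟨t, ht⟩ := hx
    obtain ⟨t', ht'⟩ := hy
    refine ⟨t' + t, fun n => ?_⟩
    rw [mul_smul, ht', ht]
    congr 1; ring
  | inv x _ hx =>
    obtain ⟨t, ht⟩ := hx
    refine ⟨-t, fun n => ?_⟩
    rw [inv_smul_eq_iff, ht]
    congr 1; ring

theorem RFG (hTSE : TSE_stmt.{u}) (hRFX : RFX_stmt.{u}) (hRDI : RDI_stmt.{u})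
    (hTHU : THU_stmt.{u}) (_hLNA : LNA_stmt.{u}) : RFG_stmt.{u} := by
  intro G V _ _ _ d hact S hS hR
  by_cases hE : ∀ g : G, Ell V g
  · left
    obtain ⟨v, hv⟩ := (hTSE G V d hact).2 hE S
    exact ⟨v, fun g => RFG_fix S hS v hv g⟩
  · push Not at hE
    obtain ⟨z, hz⟩ := hE
    by_cases hinv : ∀ g : G, ¬ Ell V g → ∃ h : G, ∃ x ∈ Ax d g, h • x ∉ Ax d g
    · exfalso
      obtain ⟨f, _, hfr⟩ := (hTHU G V d hact).1 z hz
      have hx : f 0 ∈ Ax d z := by rw [← hfr]; exact ⟨0, rfl⟩
      apply hz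
      exact ⟨f 0, RFG_fix S hS (f 0)
        (fun s hs => hRFX G V d hact s (hR s hs) hinv z hz (f 0) hx) z⟩
    · push Not at hinv
      obtain ⟨g0, hg0, hAx⟩ := hinv
      right
      obtain ⟨f, hf, hfr⟩ := (hTHU G V d hact).1 g0 hg0
      have hmap : ∀ (g : G) (n : ℤ), ∃ m, g • f n = f m := by
        intro g n
        have h1 : f n ∈ Ax d g0 := by rw [← hfr]; exact ⟨n, rfl⟩
        have h2 := hAx g (f n) h1
        rw [← hfr] at h2
        obtain ⟨m, hm⟩ := h2
        exact ⟨m, hm.symm⟩
      have hgen : ∀ s ∈ S, ∃ t : ℤ, ∀ n, s • f n = f (n + t) := fun s hs =>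
        hRDI G V d hact f hf hmap g0 hg0 s (hR s hs)
      have hall := RFG_trans S hS f hgen
      choose t ht using hall
      have hinj := RFG_inj hact.tm f hf
      have hone : t 1 = 0 := by
        have := ht 1 0
        rw [one_smul] at this
        have := hinj _ _ this
        omega
      have hmul : ∀ g h : G, t (g * h) = t g + t h := by
        intro g h
        have h1 := ht (g * h) 0
        rw [mul_smul, ht h, ht g] at h1
        have := hinj _ _ h1
        omega
      refine ⟨f, ⟨⟨fun g => Multiplicative.ofAdd (t g), ?_⟩, ?_⟩, hf, ?_, g0, ?_⟩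
      · show Multiplicative.ofAdd (t 1) = 1
        rw [hone]; rfl
      · intro g h
        show Multiplicative.ofAdd (t (g * h)) = Multiplicative.ofAdd (t g) * Multiplicative.ofAdd (t h)
        rw [hmul]; rfl
      · intro g n
        exact ht g n
      · intro h
        have h0 : t g0 = 0 := by
          have : Multiplicative.toAdd (Multiplicative.ofAdd (t g0)) =
              Multiplicative.toAdd (1 : Multiplicative ℤ) := congrArg Multiplicative.toAdd h
          exact this
        apply hg0
        refine ⟨f 0, ?_⟩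
        rw [ht g0 0, h0, add_zero]

end Pool.Agent.helper80.EN
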